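import Pool.Agent.Lib.MP_d5e6ed_al.Nilp

/-!
A nilpotent group with one finitely generated element centralizer is finitely generated.
-/

namespace Pool.Agent.PolycyclicCent

open Subgroup
open scoped commutatorElement

theorem fg_of_ker_range {D K : Type*} [Group D] [Group K] (f : D →* K)
    (h1 : Group.FG f.ker) (h2 : Group.FG f.range) : Group.FG D := by
  rw [Group.fg_def]
  refine fg_of_map_of_inf_ker f ⊤ ?_ ?_
  · rw [top_inf_eq]; exact (Group.fg_iff_subgroup_fg _).mp h1
  · rw [← MonoidHom.range_eq_map]; exact (Group.fg_iff_subgroup_fg _).mp h2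

theorem fg_of_centralizer_fg (N : Type*) [Group N] [Group.IsNilpotent N] :
    ∀ g : N, (centralizer {g}).FG → Group.FG N := by
  refine Group.nilpotent_center_quotient_ind
    (P := fun N _ _ => ∀ g : N, (centralizer {g}).FG → Group.FG N) N ?_ ?_
  · intro G _ _ g _
    infer_instance
  · intro G _ _ ih g hg
    have hno : NoethSub (centralizer {g}) := noethSub_of_nilpotent_fg inferInstance hg
    have hZle : center G ≤ centralizer {g} := center_le_centralizer _
    have hZ : (center G).FG := hno _ hZle
    have hZ' : Group.FG (center G) := (Group.fg_iff_subgroup_fg _).mpr hZ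
    set mk := QuotientGroup.mk' (center G) with hmk
    set D : Subgroup G := (centralizer {mk g}).comap mk with hD
    have hDm : ∀ x : G, x ∈ D ↔ ⁅x, g⁆ ∈ center G := by
      intro x
      rw [hD, mem_comap, mem_centralizer_singleton_iff, ← commutatorElement_eq_one_iff_mul_comm,
        ← map_commutatorElement, hmk, QuotientGroup.mk'_apply, QuotientGroup.eq_one_iff]
    have hCD : centralizer {g} ≤ D := by
      intro x hx
      rw [hDm]
      rw [mem_centralizer_singleton_iff, ← commutatorElement_eq_one_iff_mul_comm] at hx
      rw [hx]; exact one_mem _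
    let φ : D →* center G :=
      { toFun := fun x => ⟨⁅(x : G), g⁆, (hDm x).mp x.2⟩
        map_one' := by ext; simp
        map_mul' := by
          intro x y
          ext
          have hy : ⁅(y : G), g⁆ ∈ center G := (hDm y).mp y.2
          have hx : ⁅(x : G), g⁆ ∈ center G := (hDm x).mp x.2
          rw [mem_center_iff] at hy hx
          change ⁅(x : G) * y, g⁆ = ⁅(x : G), g⁆ * ⁅(y : G), g⁆
          rw [commutatorElement_mul_left_eq_conj_mul, hy, mul_inv_cancel_right, hx] }
    have hker : φ.ker = (centralizer {g}).subgroupOf D := by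
      ext x
      rw [MonoidHom.mem_ker, mem_subgroupOf, mem_centralizer_singleton_iff,
        ← commutatorElement_eq_one_iff_mul_comm]
      constructor
      · intro h; exact congrArg Subtype.val h
      · intro h; ext; exact h
    have hkfg : Group.FG φ.ker := by
      rw [hker]
      have e := (subgroupOfEquivOfLe hCD).symm
      have : Group.FG (centralizer {g}) := (Group.fg_iff_subgroup_fg _).mpr hg
      exact Group.fg_of_surjective (f := e.toMonoidHom) e.surjective
    have hrfg : Group.FG φ.range := by
      have h0 : (φ.range : Subgroup (center G)).FG := 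
        comm_fg' (fun x y => by ext; exact ((mem_center_iff.mp y.2) x)) hZ' φ.range
      exact (Group.fg_iff_subgroup_fg _).mpr h0
    have hDfg : D.FG := (Group.fg_iff_subgroup_fg _).mp (fg_of_ker_range φ hkfg hrfg)
    have hq : (centralizer {mk g}).FG := by
      have : centralizer {mk g} = D.map mk := by
        rw [hD, map_comap_eq_self_of_surjective (QuotientGroup.mk'_surjective _)]
      rw [this]
      exact map_fg _ hDfg
    have hQ : Group.FG (G ⧸ center G) := ih (mk g) hq
    refine fg_of_ker_range mk ?_ ?_
    · rw [hmk, QuotientGroup.ker_mk']; exact hZ'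
    · rw [MonoidHom.range_eq_top.mpr (QuotientGroup.mk'_surjective _)]
      exact (Group.fg_iff_subgroup_fg _).mpr (Group.fg_def.mp hQ)

/-- Subgroup version inside a bigger group. -/
theorem fg_of_centralizer_inf_fg {G : Type*} [Group G] (N : Subgroup G)
    (hN : Group.IsNilpotent N) (g : G) (hg : g ∈ N) (h : (centralizer {g} ⊓ N).FG) : N.FG := by
  rw [← Group.fg_iff_subgroup_fg]
  refine fg_of_centralizer_fg N ⟨g, hg⟩ ?_
  have h1 : (centralizer {(⟨g, hg⟩ : N)}) = (centralizer {g} ⊓ N).subgroupOf N := by
    ext x
    rw [mem_subgroupOf, mem_inf, mem_centralizer_singleton_iff, mem_centralizer_singleton_iff]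
    constructor
    · intro h; exact ⟨congrArg Subtype.val h, x.2⟩
    · intro h; ext; exact h.1
  rw [h1]
  have e := (subgroupOfEquivOfLe (inf_le_right : centralizer {g} ⊓ N ≤ N)).symm
  have : Group.FG (centralizer {g} ⊓ N : Subgroup G) := (Group.fg_iff_subgroup_fg _).mpr h
  rw [← Group.fg_iff_subgroup_fg]
  exact Group.fg_of_surjective (f := e.toMonoidHom) e.surjective

end Pool.Agent.PolycyclicCent
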