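import Mathlib

/-!
A generic element of a finitely generated module over a Noetherian commutative ring.
-/

namespace Pool.Agent.PolycyclicCent

/-- In a finitely generated module `M` over a Noetherian commutative ring there is an element `m`
whose annihilator consists of elements acting nilpotently on `M`. -/
theorem exists_generic (R M : Type*) [CommRing R] [IsNoetherianRing R] [AddCommGroup M]
    [Module R M] [Module.Finite R M] :
    ∃ m : M, ∀ r : R, r • m = 0 → r ∈ (Module.annihilator R M).radical := by
  classical
  have hfin := (Module.annihilator R M).finite_minimalPrimes_of_isNoetherianRing R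
  have hex : ∀ q ∈ (Module.annihilator R M).minimalPrimes, ∃ x : M, ∀ r : R, r ∈ q ↔ r • x = 0 := by
    intro q hq
    have h1 := Module.associatedPrimes.minimalPrimes_annihilator_subset_associatedPrimes R M hq
    rw [AssociatedPrimes.mem_iff, isAssociatedPrime_iff] at h1
    obtain ⟨_, x, hx⟩ := h1
    refine ⟨x, fun r => ?_⟩
    rw [hx, Submodule.mem_colon_singleton, Submodule.mem_bot]
  choose! x hx using hex
  set F := hfin.toFinset with hF
  refine ⟨∑ q ∈ F, x q, fun r hr => ?_⟩
  rw [← Ideal.sInf_minimalPrimes, Submodule.mem_sInf]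
  intro (q : Ideal R) hq
  have hqF : q ∈ F := by rw [hF, Set.Finite.mem_toFinset]; exact hq
  have hqp : q.IsPrime := hq.1.1
  -- element in all other minimal primes but not in q
  have hnot : ¬ (F.erase q).inf id ≤ q := by
    rw [Ideal.IsPrime.inf_le' hqp]
    rintro ⟨q', hq', hle⟩
    rw [Finset.mem_erase] at hq'
    have hq'm : q' ∈ (Module.annihilator R M).minimalPrimes := by
      rw [← Set.Finite.mem_toFinset hfin]; exact hq'.2
    have : q ≤ q' := hq.2 ⟨hq'm.1.1, hq'm.1.2⟩ hle
    exact hq'.1 (le_antisymm hle this)
  obtain ⟨s, hs, hsq⟩ := Set.not_subset.mp hnot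
  have h2 : (s * r) • ∑ p ∈ F, x p = (s * r) • x q := by
    rw [Finset.smul_sum, ← Finset.add_sum_erase F _ hqF]
    rw [Finset.sum_eq_zero, add_zero]
    intro p hp
    have hpm : p ∈ (Module.annihilator R M).minimalPrimes := by
      rw [← Set.Finite.mem_toFinset hfin]; exact (Finset.mem_erase.mp hp).2
    have hsp : s ∈ p := (Finset.inf_le hp : (F.erase q).inf id ≤ id p) hs
    rw [← hx p hpm]
    exact Ideal.mul_mem_right _ _ hsp
  have h3 : (s * r) • x q = 0 := by
    rw [← h2, mul_smul, hr, smul_zero]
  rw [← hx q hq] at h3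
  exact (hqp.mem_or_mem h3).resolve_left hsq

end Pool.Agent.PolycyclicCent
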