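import Pool.Agent.Lib.MP_d5e6ed_al.LFG
import Pool.Agent.Lib.MP_d5e6ed_al.CentNilp
import Pool.Agent.Lib.MP_d5e6ed_al.Generic

/-!
Groups with finitely generated element centralizers: the nilpotent-by-abelian-by-finite case.
-/

namespace Pool.Agent.PolycyclicCent

open Subgroup
open scoped commutatorElement

/-- commuting unipotent operators: every finite set lies in a finitely generated invariant
additive subgroup. -/
theorem unip_finite {R M : Type*} [CommRing R] [AddCommGroup M] [Module R M] (s : Set R)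
    (hs : s.Finite) (h : ∀ c ∈ s, ∃ k : ℕ, ∀ m : M, (c - 1) ^ k • m = 0) :
    ∀ X : Set M, X.Finite → ∃ Y : Set M, Y.Finite ∧ X ⊆ AddSubgroup.closure Y ∧
      ∀ c ∈ s, ∀ y ∈ Y, c • y ∈ AddSubgroup.closure Y := by
  induction s, hs using Set.Finite.induction_on with
  | empty => intro X hX; exact ⟨X, hX, AddSubgroup.subset_closure, by simp⟩
  | @insert a s _ _ ih =>
    intro X hX
    obtain ⟨Y, hY, hXY, hsY⟩ := ih (fun c hc => h c (Set.mem_insert_of_mem _ hc)) X hX
    obtain ⟨k, hk⟩ := h a (Set.mem_insert _ _)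
    set Z : Set M := (fun p : ℕ × M => (a - 1) ^ p.1 • p.2) '' ((Set.Iio (k + 1)) ×ˢ Y) with hZ
    have hZf : Z.Finite := ((Set.finite_Iio _).prod hY).image _
    have hmemZ : ∀ i : ℕ, ∀ y ∈ Y, (a - 1) ^ i • y ∈ AddSubgroup.closure Z := by
      intro i y hy
      by_cases hi : i < k + 1
      · exact AddSubgroup.subset_closure ⟨(i, y), ⟨hi, hy⟩, rfl⟩
      · have : (a - 1) ^ i • y = 0 := by
          obtain ⟨j, rfl⟩ : ∃ j, i = j + k := ⟨i - k, by omega⟩
          rw [pow_add, mul_smul, hk, smul_zero]
        rw [this]; exact zero_mem _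
    have hmem2 : ∀ i : ℕ, ∀ y ∈ AddSubgroup.closure Y,
        (a - 1) ^ i • y ∈ AddSubgroup.closure Z := by
      intro i y hy
      induction hy using AddSubgroup.closure_induction with
      | mem y hy => exact hmemZ i y hy
      | zero => rw [smul_zero]; exact zero_mem _
      | add x y _ _ h1 h2 => rw [smul_add]; exact add_mem h1 h2
      | neg x _ h1 => rw [smul_neg]; exact neg_mem h1
    refine ⟨Z, hZf, ?_, ?_⟩
    · intro x hx
      have := hmem2 0 x (hXY hx)
      simpa using this
    · intro c hc z hz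
      obtain ⟨⟨i, y⟩, ⟨_, hy⟩, rfl⟩ := hz
      rcases hc with rfl | hc
      · have e : c • ((c - 1) ^ i • y) = (c - 1) ^ (i + 1) • y + (c - 1) ^ i • y := by
          rw [← mul_smul, ← add_smul]
          congr 1
          ring
        simp only
        rw [e]
        exact add_mem (hmemZ _ y hy) (hmemZ _ y hy)
      · simp only
        rw [smul_comm]
        exact hmem2 i _ (hsY c hc y hy)

variable {G : Type*} [Group G]

theorem conj_all_of_gens {C K : Subgroup G} {S₀ : Set G} (hS₀ : closure S₀ = C)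
    (h1 : ∀ s ∈ S₀, ∀ k ∈ K, s * k * s⁻¹ ∈ K) (h2 : ∀ s ∈ S₀, ∀ k ∈ K, s⁻¹ * k * s ∈ K) :
    ∀ c ∈ C, ∀ k ∈ K, c * k * c⁻¹ ∈ K := by
  have hall : ∀ c ∈ C, (∀ k ∈ K, c * k * c⁻¹ ∈ K) ∧ (∀ k ∈ K, c⁻¹ * k * c ∈ K) := by
    intro c hc
    rw [← hS₀] at hc
    induction hc using Subgroup.closure_induction with
    | mem s hs => exact ⟨h1 s hs, h2 s hs⟩
    | one => simp
    | mul x y _ _ h1 h2 =>
      refine ⟨fun k hk => ?_, fun k hk => ?_⟩
      · have := h1.1 _ (h2.1 k hk)
        simpa [mul_assoc] using this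
      · have := h2.2 _ (h1.2 k hk)
        simpa [mul_assoc] using this
    | inv x _ h1 =>
      refine ⟨fun k hk => ?_, fun k hk => ?_⟩
      · simpa using h1.2 k hk
      · simpa using h1.1 k hk
  exact fun c hc => (hall c hc).1

/-- A normal subgroup with abelian quotient of a finitely generated group is the normal closure of
a finite set. -/
theorem normal_fg [Group.FG G] (N : Subgroup G) (hab : commutator G ≤ N) :
    ∃ X : Set G, X.Finite ∧ X ⊆ N ∧ ∀ L : Subgroup G, L.Normal → X ⊆ L → N ≤ L := by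
  classical
  obtain ⟨S, hS, hSf⟩ := Group.fg_iff.mp (inferInstance : Group.FG G)
  have hAfg : Group.FG (Abelianization G) :=
    Group.fg_of_surjective (f := Abelianization.of) (QuotientGroup.mk'_surjective _)
  have hfg : (N.map (Abelianization.of : G →* Abelianization G)).FG := comm_fg _
  obtain ⟨T, hT⟩ := hfg
  have hT' : ∀ t ∈ T, ∃ n ∈ N, Abelianization.of n = t := by
    intro t ht
    have : t ∈ N.map (Abelianization.of : G →* Abelianization G) := by
      rw [← hT]; exact subset_closure ht
    obtain ⟨n, hn, rfl⟩ := this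
    exact ⟨n, hn, rfl⟩
  choose! f hf hft using hT'
  refine ⟨commSet S S ∪ f '' (T : Set (Abelianization G)),
    (commSet_finite hSf hSf).union (T.finite_toSet.image _), ?_, ?_⟩
  · rintro x (⟨s, _, t, _, rfl⟩ | ⟨t, ht, rfl⟩)
    · exact hab (commutator_mem_commutator (mem_top _) (mem_top _))
    · exact hf t ht
  · intro L hL hX
    have hcomm : commutator G ≤ L := by
      -- the images of the generators commute in G / L
      have h1 : ∀ s ∈ S, ∀ t ∈ S, QuotientGroup.mk' L s * QuotientGroup.mk' L t =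
          QuotientGroup.mk' L t * QuotientGroup.mk' L s := by
        intro s hs t ht
        rw [← commutatorElement_eq_one_iff_mul_comm, ← map_commutatorElement,
          QuotientGroup.mk'_apply, QuotientGroup.eq_one_iff]
        exact hX (Or.inl ⟨s, hs, t, ht, rfl⟩)
      have h2 : closure (QuotientGroup.mk' L '' S) = ⊤ := by
        rw [← MonoidHom.map_closure, hS, ← MonoidHom.range_eq_map,
          MonoidHom.range_eq_top.mpr (QuotientGroup.mk'_surjective _)]
      have h3 : (⊤ : Subgroup (G ⧸ L)) ≤ centralizer (QuotientGroup.mk' L '' S) := by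
        rw [← h2, closure_le]
        rintro _ ⟨s, hs, rfl⟩
        rw [SetLike.mem_coe, mem_centralizer_iff]
        rintro _ ⟨t, ht, rfl⟩
        exact h1 t ht s hs
      have h4 : (⊤ : Subgroup (G ⧸ L)) ≤ centralizer (⊤ : Subgroup (G ⧸ L)) := by
        rw [← h2, closure_le]
        rintro _ ⟨s, hs, rfl⟩
        rw [SetLike.mem_coe, mem_centralizer_iff]
        intro y hy
        have h5 : y ∈ centralizer (QuotientGroup.mk' L '' S) := h3 (mem_top y)
        rw [mem_centralizer_iff] at h5
        exact (h5 _ ⟨s, hs, rfl⟩).symm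
      rw [_root_.commutator_def, commutator_le]
      intro x _ y _
      rw [← QuotientGroup.eq_one_iff, ← QuotientGroup.mk'_apply, map_commutatorElement,
        commutatorElement_eq_one_iff_mul_comm]
      have := h4 (mem_top (QuotientGroup.mk' L y))
      rw [mem_centralizer_iff] at this
      exact this _ (mem_top _)
    intro n hn
    have h1 : Abelianization.of n ∈ closure (T : Set (Abelianization G)) := by
      rw [hT]; exact ⟨n, hn, rfl⟩
    have h2 : closure (T : Set (Abelianization G)) ≤ L.map Abelianization.of := by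
      rw [closure_le]
      intro t ht
      exact ⟨f t, hX (Or.inr ⟨t, ht, rfl⟩), hft t ht⟩
    obtain ⟨l, hl, hln⟩ := h2 h1
    have h3 : l⁻¹ * n ∈ commutator G := by
      rw [← Abelianization.ker_of, MonoidHom.mem_ker, map_mul, map_inv, hln, inv_mul_cancel]
    have := L.mul_mem hl (hcomm h3)
    simpa using this

theorem comm_subgroupOf (N C : Subgroup G) (hab : commutator G ≤ N) :
    commutator C ≤ N.subgroupOf C := by
  rw [_root_.commutator_def, commutator_le]
  intro x _ y _
  rw [mem_subgroupOf]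
  have h1 : ((⁅x, y⁆ : C) : G) = ⁅(x : G), (y : G)⁆ := map_commutatorElement C.subtype x y
  rw [h1]
  exact hab (commutator_mem_commutator (mem_top _) (mem_top _))

theorem inf_fg_of_lf {C N : Subgroup G} [N.Normal] (hN : Group.IsNilpotent N)
    (hab : commutator G ≤ N) (hCfg : C.FG) (hLF : LF C N ⊥) : (C ⊓ N).FG := by
  have hCfg' : Group.FG C := (Group.fg_iff_subgroup_fg _).mpr hCfg
  obtain ⟨X, hX, hXK, hXL⟩ := normal_fg (N.subgroupOf C) (comm_subgroupOf N C hab)
  refine fg_of_lf hN hLF inf_le_right ((↑) '' X) (hX.image _) ?_ ?_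
  · rintro _ ⟨x, hx, rfl⟩
    exact ⟨x.2, hXK hx⟩
  · intro L hXL' hL
    have h1 : N.subgroupOf C ≤ L.subgroupOf C := by
      apply hXL
      · constructor
        intro l hl c
        rw [mem_subgroupOf] at hl ⊢
        exact hL c c.2 l hl
      · intro x hx
        rw [SetLike.mem_coe, mem_subgroupOf]
        exact hXL' ⟨x, hx, rfl⟩
    rintro x ⟨hxC, hxN⟩
    exact h1 (x := ⟨x, hxC⟩) hxN

section cls

variable (N : Subgroup G)

/-- the class of an element of `N` in the (additive) abelianization of `N` -/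
def cls (n : N) : Additive (Abelianization N) := Additive.ofMul (Abelianization.of n)

theorem cls_surj (x : Additive (Abelianization N)) : ∃ n : N, cls N n = x := by
  obtain ⟨y, hy⟩ := QuotientGroup.mk'_surjective _ (Additive.toMul x)
  exact ⟨y, congrArg Additive.ofMul hy⟩

theorem cls_mul (a b : N) : cls N (a * b) = cls N a + cls N b := by
  simp [cls]

theorem cls_inv (a : N) : cls N a⁻¹ = - cls N a := by
  simp [cls]

theorem cls_one : cls N 1 = 0 := by
  simp [cls]

theorem cls_eq (a b : N) (h : cls N a = cls N b) : ((a⁻¹ * b : N) : G) ∈ ⁅N, N⁆ := by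
  have h1 : Abelianization.of a = Abelianization.of b := Additive.ofMul.injective h
  have h2 : a⁻¹ * b ∈ commutator N := by
    rw [← Abelianization.ker_of, MonoidHom.mem_ker, map_mul, map_inv, h1, inv_mul_cancel]
  rw [← Subgroup.map_subtype_commutator]
  exact ⟨_, h2, rfl⟩

/-- If a class lies in the additive closure of classes, the element lies in the closure modulo
the commutator subgroup. -/
theorem mem_closure_of_cls (T : Set N) (n : N) (h : cls N n ∈ AddSubgroup.closure (cls N '' T)) :
    (n : G) ∈ closure ((↑) '' T : Set G) ⊔ ⁅N, N⁆ := by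
  have h1 : ∀ x ∈ AddSubgroup.closure (cls N '' T), ∃ f ∈ closure T, cls N f = x := by
    intro x hx
    induction hx using AddSubgroup.closure_induction with
    | mem x hx => obtain ⟨t, ht, rfl⟩ := hx; exact ⟨t, subset_closure ht, rfl⟩
    | zero => exact ⟨1, one_mem _, cls_one N⟩
    | add x y _ _ h1 h2 =>
      obtain ⟨a, ha, rfl⟩ := h1
      obtain ⟨b, hb, rfl⟩ := h2
      exact ⟨a * b, mul_mem ha hb, cls_mul N a b⟩
    | neg x _ h1 =>
      obtain ⟨a, ha, rfl⟩ := h1
      exact ⟨a⁻¹, inv_mem ha, cls_inv N a⟩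
  obtain ⟨f, hf, hfn⟩ := h1 _ h
  have h2 := cls_eq N f n hfn
  have h3 : (f : G) ∈ closure ((↑) '' T : Set G) := by
    have : (f : G) ∈ (closure T).map N.subtype := ⟨f, hf, rfl⟩
    rwa [MonoidHom.map_closure] at this
  have h4 : (n : G) = (f : G) * ((f⁻¹ * n : N) : G) := by simp
  rw [h4]
  exact mul_mem (Subgroup.mem_sup_left h3) (Subgroup.mem_sup_right h2)

end cls

section action

variable (N : Subgroup G) [N.Normal]

/-- the action of `G` on the abelianization of `N` by conjugation -/
noncomputable def act : G →* Module.End ℤ (Additive (Abelianization N)) where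
  toFun g := AddMonoidHom.toIntLinearMap
    (MonoidHom.toAdditive (Abelianization.map (MulAut.conjNormal g : MulAut N).toMonoidHom))
  map_one' := by
    ext x
    obtain ⟨y, rfl⟩ := cls_surj N x
    simp [cls]
  map_mul' := by
    intro g h
    ext x
    obtain ⟨y, rfl⟩ := cls_surj N x
    simp [cls]

theorem act_cls (g : G) (n : N) : act N g (cls N n) = cls N (MulAut.conjNormal g n) := by
  simp [act, cls]

theorem act_of_mem (g : G) (hg : g ∈ N) : act N g = 1 := by
  ext x
  obtain ⟨y, rfl⟩ := cls_surj N x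
  rw [act_cls]
  have : (MulAut.conjNormal g : MulAut N) y = ⟨g, hg⟩ * y * ⟨g, hg⟩⁻¹ := by
    ext; simp
  rw [this, cls_mul, cls_mul, cls_inv]
  simp

/-- the action of the abelianization of `G`, when `G / N` is abelian -/
noncomputable def actAb (hab : commutator G ≤ N) :
    Abelianization G →* Module.End ℤ (Additive (Abelianization N)) :=
  QuotientGroup.lift (commutator G) (act N) (fun g hg => act_of_mem N g (hab hg))

theorem actAb_of (hab : commutator G ≤ N) (g : G) :
    actAb N hab (Abelianization.of g) = act N g := rfl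

/-- the corresponding ring homomorphism from the group ring -/
noncomputable def ringAct (hab : commutator G ≤ N) :
    MonoidAlgebra ℤ (Abelianization G) →ₐ[ℤ] Module.End ℤ (Additive (Abelianization N)) :=
  MonoidAlgebra.lift ℤ _ _ (actAb N hab)

theorem ringAct_of (hab : commutator G ≤ N) (g : G) :
    ringAct N hab (MonoidAlgebra.of ℤ _ (Abelianization.of g)) = act N g := by
  rw [ringAct, MonoidAlgebra.lift_of, actAb_of]

theorem lf_of_action {C : Subgroup G} {S₀ : Set G} (_hf : S₀.Finite) (hS₀ : closure S₀ = C)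
    (h : ∀ X : Set (Additive (Abelianization N)), X.Finite →
      ∃ Y : Set (Additive (Abelianization N)), Y.Finite ∧ X ⊆ AddSubgroup.closure Y ∧
        ∀ c : G, (c ∈ S₀ ∨ c⁻¹ ∈ S₀) → ∀ y ∈ Y, act N c y ∈ AddSubgroup.closure Y) :
    LF C N ⁅N, N⁆ := by
  intro X hX hXN
  let X' : Set N := {n | (n : G) ∈ X}
  have hX' : X'.Finite := hX.preimage (Subtype.val_injective.injOn)
  obtain ⟨Y, hY, hXY, hsY⟩ := h (cls N '' X') (hX'.image _)
  -- lift Y
  have hlift : ∃ T : Set N, T.Finite ∧ cls N '' T = Y := by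
    choose f hf using cls_surj N
    refine ⟨f '' Y, hY.image _, ?_⟩
    rw [← Set.image_comp]
    have : cls N ∘ f = id := by ext x; exact hf x
    rw [this, Set.image_id]
  obtain ⟨T, hT, hTY⟩ := hlift
  rw [← hTY] at hXY hsY
  have hgen : ∀ c : G, (c ∈ S₀ ∨ c⁻¹ ∈ S₀) →
      ∀ k ∈ closure ((↑) '' T : Set G) ⊔ ⁅N, N⁆,
        c * k * c⁻¹ ∈ closure ((↑) '' T : Set G) ⊔ ⁅N, N⁆ := by
    intro c hc
    apply conj_mem_of_gen_sup
    rintro _ ⟨t, ht, rfl⟩
    have h1 := hsY c hc _ ⟨t, ht, rfl⟩
    rw [act_cls] at h1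
    have h2 := mem_closure_of_cls N T _ h1
    rwa [MulAut.conjNormal_apply] at h2
  refine ⟨(↑) '' T, hT.image _, ?_, ?_, ?_⟩
  · rintro _ ⟨t, _, rfl⟩; exact t.2
  · intro x hx
    exact mem_closure_of_cls N T ⟨x, hXN hx⟩ (hXY ⟨⟨x, hXN hx⟩, hx, rfl⟩)
  · have hall : ∀ c ∈ C, ∀ k ∈ closure ((↑) '' T : Set G) ⊔ ⁅N, N⁆,
        c * k * c⁻¹ ∈ closure ((↑) '' T : Set G) ⊔ ⁅N, N⁆ := by
      refine conj_all_of_gens hS₀ (fun s hs => hgen s (Or.inl hs)) (fun s hs k hk => ?_)
      have := hgen s⁻¹ (Or.inr (by rwa [inv_inv])) k hk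
      rwa [inv_inv] at this
    rintro c hc _ ⟨t, ht, rfl⟩
    exact hall c hc _ (Subgroup.mem_sup_left (subset_closure ⟨t, ht, rfl⟩))

theorem main_step [Group.FG G] (hN : Group.IsNilpotent N) (hab : commutator G ≤ N)
    (hC : ∀ g : G, (centralizer {g}).FG) : N.FG := by
  classical
  have hAfg : Group.FG (Abelianization G) :=
    Group.fg_of_surjective (f := Abelianization.of) (QuotientGroup.mk'_surjective _)
  -- the module structure
  let R := MonoidAlgebra ℤ (Abelianization G)
  let M := Additive (Abelianization N)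
  let _ : Module R M := Module.compHom M (ringAct N hab).toRingHom
  have hsmul : ∀ (g : G) (m : M),
      (MonoidAlgebra.of ℤ _ (Abelianization.of g) : R) • m = act N g m := by
    intro g m
    change (ringAct N hab (MonoidAlgebra.of ℤ _ (Abelianization.of g))) m = _
    rw [ringAct_of]
  have hRnoeth : IsNoetherianRing R := Algebra.FiniteType.isNoetherianRing ℤ R
  -- finite generation of M
  have hMfin : Module.Finite R M := by
    obtain ⟨X, hX, hXN, hXL⟩ := normal_fg N hab
    let X' : Set N := {n | (n : G) ∈ X}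
    have hX' : X'.Finite := hX.preimage (Subtype.val_injective.injOn)
    let W : Submodule R M := Submodule.span R (cls N '' X')
    let L : Subgroup G :=
      { carrier := {x | ∃ h : x ∈ N, cls N ⟨x, h⟩ ∈ W}
        mul_mem' := by
          rintro a b ⟨ha, ha'⟩ ⟨hb, hb'⟩
          refine ⟨N.mul_mem ha hb, ?_⟩
          have : (⟨a * b, N.mul_mem ha hb⟩ : N) = ⟨a, ha⟩ * ⟨b, hb⟩ := rfl
          rw [this, cls_mul]
          exact W.add_mem ha' hb'
        one_mem' := ⟨N.one_mem, by
          have : (⟨1, N.one_mem⟩ : N) = 1 := rfl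
          rw [this, cls_one]; exact W.zero_mem⟩
        inv_mem' := by
          rintro a ⟨ha, ha'⟩
          refine ⟨N.inv_mem ha, ?_⟩
          have : (⟨a⁻¹, N.inv_mem ha⟩ : N) = ⟨a, ha⟩⁻¹ := rfl
          rw [this, cls_inv]
          exact W.neg_mem ha' }
    have hLn : L.Normal := by
      constructor
      rintro n ⟨hn, hn'⟩ g
      have hg : g * n * g⁻¹ ∈ N := Subgroup.Normal.conj_mem inferInstance _ hn _
      refine ⟨hg, ?_⟩
      have h1 := W.smul_mem (MonoidAlgebra.of ℤ _ (Abelianization.of g) : R) hn'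
      rw [hsmul, act_cls] at h1
      have : (MulAut.conjNormal g : MulAut N) ⟨n, hn⟩ = ⟨g * n * g⁻¹, hg⟩ := by
        ext; simp
      rwa [this] at h1
    have hNL : N ≤ L := hXL L hLn (by
      intro x hx
      exact ⟨hXN hx, Submodule.subset_span ⟨⟨x, hXN hx⟩, hx, rfl⟩⟩)
    refine ⟨⟨(hX'.image (cls N)).toFinset, ?_⟩⟩
    rw [Set.Finite.coe_toFinset, eq_top_iff]
    rintro x -
    obtain ⟨n, rfl⟩ := cls_surj N x
    obtain ⟨h, h'⟩ := hNL n.2
    exact h'
  -- a generic element
  obtain ⟨m, hm⟩ := exists_generic R M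
  obtain ⟨g, rfl⟩ := cls_surj N m
  set C : Subgroup G := centralizer {(g : G)} with hCdef
  have hCfg : C.FG := hC g
  have hunip : ∀ c ∈ C, ∃ k : ℕ, ∀ x : M,
      ((MonoidAlgebra.of ℤ _ (Abelianization.of c) : R) - 1) ^ k • x = 0 := by
    intro c hc
    have h1 : ((MonoidAlgebra.of ℤ _ (Abelianization.of c) : R) - 1) • cls N g = 0 := by
      rw [sub_smul, one_smul, hsmul, act_cls]
      have : (MulAut.conjNormal c : MulAut N) g = g := by
        ext
        rw [hCdef, mem_centralizer_singleton_iff] at hc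
        rw [MulAut.conjNormal_apply, hc, mul_inv_cancel_right]
      rw [this, sub_self]
    obtain ⟨k, hk⟩ := hm _ h1
    refine ⟨k, fun x => ?_⟩
    exact Module.mem_annihilator.mp hk x
  -- local finite generation of N / N' under C
  have hLF : LF C N ⁅N, N⁆ := by
    obtain ⟨S₀, hS₀⟩ := hCfg
    refine lf_of_action N S₀.finite_toSet hS₀ ?_
    intro X hX
    let s : Set R := (fun c : G => (MonoidAlgebra.of ℤ _ (Abelianization.of c) : R)) ''
      {c : G | c ∈ (S₀ : Set G) ∨ c⁻¹ ∈ (S₀ : Set G)}
    have hs : s.Finite := by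
      refine Set.Finite.image _ ?_
      refine (S₀.finite_toSet.union (S₀.finite_toSet.image (fun x => x⁻¹))).subset ?_
      rintro c (hc | hc)
      · exact Or.inl hc
      · exact Or.inr ⟨c⁻¹, hc, inv_inv c⟩
    obtain ⟨Y, hY, hXY, hsY⟩ := unip_finite s hs (by
      rintro _ ⟨c, hc, rfl⟩
      apply hunip
      rw [← hS₀]
      rcases hc with hc | hc
      · exact subset_closure hc
      · rw [← inv_mem_iff]; exact subset_closure hc) X hX
    refine ⟨Y, hY, hXY, fun c hc y hy => ?_⟩
    have h1 := hsY _ ⟨c, hc, rfl⟩ y hy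
    rwa [hsmul] at h1
  have hLF' : LF C N ⊥ := lf_of_lf_ab hN hCfg hLF
  exact fg_of_centralizer_inf_fg N hN g g.2 (inf_fg_of_lf hN hab hCfg hLF')

end action

/-- Case `G / N` abelian. -/
theorem noeth_of_abelian_quotient (N : Subgroup G) [N.Normal] (hN : Group.IsNilpotent N)
    (hab : commutator G ≤ N) (hC : ∀ g : G, (centralizer {g}).FG) (H : Subgroup G) : H.FG := by
  have hG : Group.FG G := by
    have h1 := hC 1
    have h2 : centralizer {(1 : G)} = ⊤ := by
      rw [eq_top_iff]; intro x _; rw [mem_centralizer_singleton_iff]; simp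
    rw [h2] at h1
    exact Group.fg_def.mpr h1
  have hNfg : N.FG := main_step N hN hab hC
  have hNn : NoethSub N := noethSub_of_nilpotent_fg hN hNfg
  have : NoethSub (⊤ : Subgroup G) :=
    noethSub_of_comm hNn (fun x _ y _ => hab (commutator_mem_commutator (mem_top _) (mem_top _)))
      ⊤ (Group.fg_def.mp hG) le_sup_left le_rfl
  exact this H le_top

/-- Every subgroup of `G` is finitely generated if this holds for a finite-index subgroup. -/
theorem noeth_of_finiteIndex (G₀ : Subgroup G) [G₀.FiniteIndex]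
    (h : ∀ H : Subgroup G₀, H.FG) (H : Subgroup G) : H.FG := by
  have hsub : ∀ L : Subgroup G, L ≤ G₀ → L.FG := by
    intro L hL
    have := map_fg G₀.subtype (h (L.subgroupOf G₀))
    rwa [Subgroup.map_subgroupOf_eq_of_le hL] at this
  refine fg_of_map_of_inf_ker (QuotientGroup.mk' G₀.normalCore) H (hsub _ ?_) ?_
  · rw [QuotientGroup.ker_mk']
    exact inf_le_right.trans G₀.normalCore_le
  · have : Finite (G ⧸ G₀.normalCore) := inferInstance
    rw [← Group.fg_iff_subgroup_fg]
    infer_instance

/-- Finitely generated centralizers pass to finite-index subgroups. -/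
theorem cent_fg_finiteIndex (G₀ : Subgroup G) [G₀.FiniteIndex]
    (hC : ∀ g : G, (centralizer {g}).FG) (k : G₀) : (centralizer {k}).FG := by
  have h1 : Group.FG (centralizer {(k : G)}) := (Group.fg_iff_subgroup_fg _).mpr (hC k)
  have h2 : Group.FG (G₀.subgroupOf (centralizer {(k : G)})) := by infer_instance
  have h3 : (centralizer {k}).map G₀.subtype =
      (G₀.subgroupOf (centralizer {(k : G)})).map (centralizer {(k : G)}).subtype := by
    ext x
    rw [mem_map, mem_map]
    constructor
    · rintro ⟨y, hy, rfl⟩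
      refine ⟨⟨y, ?_⟩, y.2, rfl⟩
      rw [mem_centralizer_singleton_iff] at hy
      rw [mem_centralizer_singleton_iff]
      exact congrArg Subtype.val hy
    · rintro ⟨y, hy, rfl⟩
      have hy' : (y : G) ∈ G₀ := hy
      refine ⟨⟨y, hy'⟩, ?_, rfl⟩
      rw [mem_centralizer_singleton_iff]
      ext
      have := y.2
      rw [mem_centralizer_singleton_iff] at this
      exact this
  have h4 : ((centralizer {k}).map G₀.subtype).FG := by
    rw [h3]; exact map_fg _ ((Group.fg_iff_subgroup_fg _).mp h2)
  have e := (centralizer {k}).equivMapOfInjective G₀.subtype G₀.subtype_injective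
  rw [← Group.fg_iff_subgroup_fg] at h4 ⊢
  exact Group.fg_of_surjective (f := e.symm.toMonoidHom) e.symm.surjective

/-- The nilpotent-by-abelian-by-finite case. -/
theorem noeth_of_virtually_nilpotent_by_abelian (G₀ : Subgroup G) [G₀.FiniteIndex]
    (hnil : Group.IsNilpotent (⁅G₀, G₀⁆ : Subgroup G))
    (hC : ∀ g : G, (centralizer {g}).FG) (H : Subgroup G) : H.FG := by
  refine noeth_of_finiteIndex G₀ ?_ H
  have hn : Group.IsNilpotent (commutator G₀) := by
    have e := (commutator G₀).equivMapOfInjective G₀.subtype G₀.subtype_injective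
    rw [Group.isNilpotent_congr e, Subgroup.map_subtype_commutator]
    exact hnil
  exact noeth_of_abelian_quotient (commutator G₀) hn le_rfl (cent_fg_finiteIndex G₀ hC)

end Pool.Agent.PolycyclicCent
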