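import Mathlib

/-!
Groups all of whose subgroups are finitely generated: closure under extensions,
finitely generated abelian and nilpotent groups.
-/

namespace Pool.Agent.PolycyclicCent

open Subgroup
open scoped commutatorElement

variable {G : Type*} [Group G]

/-- Every subgroup contained in `N` is finitely generated. -/
def NoethSub (N : Subgroup G) : Prop := ∀ H : Subgroup G, H ≤ N → H.FG

theorem fg_of_map_of_inf_ker {K : Type*} [Group K] (f : G →* K) (H : Subgroup G)
    (h1 : (H ⊓ f.ker).FG) (h2 : (H.map f).FG) : H.FG := by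
  classical
  obtain ⟨S, hS⟩ := h1
  obtain ⟨T, hT⟩ := h2
  have hT' : ∀ t ∈ T, ∃ h ∈ H, f h = t := by
    intro t ht
    have : t ∈ H.map f := by rw [← hT]; exact subset_closure ht
    obtain ⟨h, hh, rfl⟩ := this
    exact ⟨h, hh, rfl⟩
  choose! s hs using hT'
  refine ⟨S ∪ T.image s, le_antisymm ?_ ?_⟩
  · rw [closure_le]
    intro x hx
    simp only [Finset.coe_union, Finset.coe_image, Set.mem_union, Finset.mem_coe,
      Set.mem_image] at hx
    rcases hx with hx | ⟨t, ht, rfl⟩
    · have : x ∈ H ⊓ f.ker := by rw [← hS]; exact subset_closure hx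
      exact this.1
    · exact (hs t ht).1
  · intro x hx
    set L := closure (↑(S ∪ T.image s) : Set G) with hL
    have hfx : f x ∈ closure (T : Set K) := by rw [hT]; exact ⟨x, hx, rfl⟩
    have hle : closure (T : Set K) ≤ (L.map f) := by
      rw [closure_le]
      intro t ht
      refine ⟨s t, subset_closure ?_, (hs t ht).2⟩
      simp only [Finset.coe_union, Finset.coe_image, Set.mem_union, Set.mem_image]
      exact Or.inr ⟨t, ht, rfl⟩
    obtain ⟨y, hy, hyx⟩ := hle hfx
    have hLH : L ≤ H := by
      rw [hL, closure_le]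
      intro x hx
      simp only [Finset.coe_union, Finset.coe_image, Set.mem_union, Finset.mem_coe,
        Set.mem_image] at hx
      rcases hx with hx | ⟨t, ht, rfl⟩
      · have : x ∈ H ⊓ f.ker := by rw [← hS]; exact subset_closure hx
        exact this.1
      · exact (hs t ht).1
    have hk : y⁻¹ * x ∈ H ⊓ f.ker := by
      refine ⟨H.mul_mem (H.inv_mem (hLH hy)) hx, ?_⟩
      change y⁻¹ * x ∈ f.ker
      rw [MonoidHom.mem_ker, map_mul, map_inv, hyx, inv_mul_cancel]
    rw [← hS] at hk
    have hSL : closure (S : Set G) ≤ L := closure_mono (by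
      simp only [Finset.coe_union]; exact Set.subset_union_left)
    have := L.mul_mem hy (hSL hk)
    simpa using this

theorem map_fg {K : Type*} [Group K] (f : G →* K) {H : Subgroup G} (h : H.FG) :
    (H.map f).FG := by
  classical
  obtain ⟨S, hS⟩ := h
  refine ⟨S.image f, ?_⟩
  rw [Finset.coe_image, ← MonoidHom.map_closure, hS]

/-- In a finitely generated commutative group every subgroup is finitely generated. -/
theorem comm_fg {A : Type*} [CommGroup A] [Group.FG A] (H : Subgroup A) : H.FG := by
  have h1 : Module.Finite ℤ (Additive A) := Module.Finite.iff_addGroup_fg.mpr inferInstance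
  have h2 : IsNoetherian ℤ (Additive A) := inferInstance
  have h3 : (AddSubgroup.toIntSubmodule (Subgroup.toAddSubgroup H)).FG := IsNoetherian.noetherian _
  obtain ⟨S, hS⟩ := h3
  rw [Subgroup.fg_iff_add_fg]
  refine ⟨S, ?_⟩
  have := congrArg Submodule.toAddSubgroup hS
  rw [Submodule.span_int_eq_addSubgroupClosure] at this
  simpa using this

theorem comm_fg' {A : Type*} [Group A] (hc : ∀ x y : A, x * y = y * x) (hA : Group.FG A)
    (H : Subgroup A) : H.FG := by
  let _ : CommGroup A := { (inferInstance : Group A) with mul_comm := hc }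
  exact comm_fg H

/-- Extension closure: if `B ≤ A` are subgroups, `B` is normalised by... we use normal `B`. -/
theorem noethSub_of_ext {A B : Subgroup G} [B.Normal] (hB : NoethSub B)
    (hA : ∀ H : Subgroup (G ⧸ B), H ≤ A.map (QuotientGroup.mk' B) → H.FG) : NoethSub A := by
  intro H hH
  refine fg_of_map_of_inf_ker (QuotientGroup.mk' B) H (hB _ ?_) (hA _ (Subgroup.map_mono hH))
  intro x hx
  have := hx.2
  rwa [QuotientGroup.ker_mk'] at this

theorem noethSub_mono {A B : Subgroup G} (h : A ≤ B) (hB : NoethSub B) : NoethSub A :=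
  fun H hH => hB H (hH.trans h)

/-- A subgroup `A` with `B ≤ A`, `B` normal, `A` commutative and finitely generated modulo `B`. -/
theorem noethSub_of_comm {A B : Subgroup G} [B.Normal] (hB : NoethSub B)
    (hcomm : ∀ x ∈ A, ∀ y ∈ A, ⁅x, y⁆ ∈ B) (F : Subgroup G) (hF : F.FG) (hFA : A ≤ F ⊔ B)
    (hFA' : F ≤ A) : NoethSub A := by
  refine noethSub_of_ext hB ?_
  intro H hH
  -- the image of A in G/B is a commutative f.g. group
  set A' := A.map (QuotientGroup.mk' B) with hA'
  have hc : ∀ x y : A', x * y = y * x := by
    rintro ⟨x, x', hx', rfl⟩ ⟨y, y', hy', rfl⟩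
    ext
    simp only [Subgroup.coe_mul, QuotientGroup.mk'_apply]
    rw [← QuotientGroup.mk_mul, ← QuotientGroup.mk_mul, QuotientGroup.eq]
    have h1 := hcomm (x'⁻¹) (A.inv_mem hx') (y'⁻¹) (A.inv_mem hy')
    have h2 : (x' * y')⁻¹ * (y' * x') = y'⁻¹ * x'⁻¹ * y' * x' := by group
    have h3 := B.inv_mem h1
    rw [commutatorElement_inv, commutatorElement_def] at h3
    rw [h2]
    simpa using h3
  let _ : CommGroup A' := { (inferInstance : Group A') with mul_comm := hc }
  have hfg : Group.FG A' := by
    rw [Group.fg_iff_subgroup_fg]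
    have : A' = F.map (QuotientGroup.mk' B) := by
      apply le_antisymm
      · rintro _ ⟨x, hx, rfl⟩
        have := hFA hx
        rw [Subgroup.mem_sup_of_normal_right] at this
        obtain ⟨f, hf, b, hb, rfl⟩ := this
        refine ⟨f, hf, ?_⟩
        simp only [QuotientGroup.mk'_apply]
        rw [QuotientGroup.eq]
        simpa using hb
      · exact Subgroup.map_mono hFA'
    rw [this]
    exact map_fg _ hF
  have := comm_fg (H.subgroupOf A')
  have h4 := map_fg A'.subtype this
  rwa [Subgroup.map_subgroupOf_eq_of_le hH] at h4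

end Pool.Agent.PolycyclicCent
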