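import Pool.Agent.Lib.MP_d5e6ed_al.Nilp

/-!
Local finite generation under a group of conjugations, passing from `N / [N, N]` to a
nilpotent group `N`.
-/

namespace Pool.Agent.PolycyclicCent

open Subgroup
open scoped commutatorElement

variable {G : Type*} [Group G]

theorem exists_finite_mem_closure {U : Set G} {x : G} (hx : x ∈ closure U) :
    ∃ V : Set G, V.Finite ∧ V ⊆ U ∧ x ∈ closure V := by
  induction hx using Subgroup.closure_induction with
  | mem t ht => exact ⟨{t}, Set.finite_singleton t, by simpa using ht, subset_closure rfl⟩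
  | one => exact ⟨∅, Set.finite_empty, Set.empty_subset _, one_mem _⟩
  | mul x y _ _ h1 h2 =>
    obtain ⟨V, hV, hVU, hx⟩ := h1
    obtain ⟨W, hW, hWU, hy⟩ := h2
    exact ⟨V ∪ W, hV.union hW, Set.union_subset hVU hWU,
      mul_mem (closure_mono Set.subset_union_left hx) (closure_mono Set.subset_union_right hy)⟩
  | inv x _ h1 =>
    obtain ⟨V, hV, hVU, hx⟩ := h1
    exact ⟨V, hV, hVU, inv_mem hx⟩

theorem exists_finite_subset_closure {U X : Set G} (hX : X.Finite)
    (h : ∀ x ∈ X, x ∈ closure U) :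
    ∃ V : Set G, V.Finite ∧ V ⊆ U ∧ ∀ x ∈ X, x ∈ closure V := by
  have h' : ∀ x : X, ∃ V : Set G, V.Finite ∧ V ⊆ U ∧ (x : G) ∈ closure V :=
    fun x => exists_finite_mem_closure (h x x.2)
  choose V hV hVU hx using h'
  have := hX.to_subtype
  refine ⟨⋃ x : X, V x, Set.finite_iUnion hV, Set.iUnion_subset hVU, fun x hxX => ?_⟩
  exact closure_mono (Set.subset_iUnion V ⟨x, hxX⟩) (hx ⟨x, hxX⟩)

/-- `A / B` is locally finitely generated under conjugation by `C`. -/
def LF (C A B : Subgroup G) : Prop :=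
  ∀ X : Set G, X.Finite → X ⊆ A → ∃ T : Set G, T.Finite ∧ T ⊆ A ∧
    (∀ x ∈ X, x ∈ closure T ⊔ B) ∧ ∀ c ∈ C, ∀ t ∈ T, c * t * c⁻¹ ∈ closure T ⊔ B

theorem conj_mem_of_gen (c : G) (T : Set G) (K : Subgroup G)
    (h : ∀ t ∈ T, c * t * c⁻¹ ∈ K) : ∀ x ∈ closure T, c * x * c⁻¹ ∈ K := by
  intro x hx
  induction hx using Subgroup.closure_induction with
  | mem t ht => exact h t ht
  | one => simp
  | mul x y _ _ h1 h2 =>
    have := K.mul_mem h1 h2
    simpa [mul_assoc] using this
  | inv x _ h1 =>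
    have := K.inv_mem h1
    simpa [mul_assoc] using this

theorem conj_mem_of_gen_sup (c : G) (T : Set G) (B : Subgroup G) [B.Normal]
    (h : ∀ t ∈ T, c * t * c⁻¹ ∈ closure T ⊔ B) :
    ∀ x ∈ closure T ⊔ B, c * x * c⁻¹ ∈ closure T ⊔ B := by
  intro x hx
  have hx' := hx
  rw [Subgroup.mem_sup_of_normal_right] at hx
  obtain ⟨f, hf, b, hb, rfl⟩ := hx
  have h1 := conj_mem_of_gen c T _ h f hf
  have h2 : c * b * c⁻¹ ∈ closure T ⊔ B :=
    Subgroup.mem_sup_right (Subgroup.Normal.conj_mem inferInstance _ hb _)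
  have := (closure T ⊔ B).mul_mem h1 h2
  simpa [mul_assoc] using this

theorem lf_ext {C A B D : Subgroup G} [B.Normal] [D.Normal] (hC : C.FG) (hBA : B ≤ A)
    (h1 : LF C A B) (h2 : LF C B D) : LF C A D := by
  classical
  intro X hX hXA
  obtain ⟨T, hT, hTA, hXT, hCT⟩ := h1 X hX hXA
  obtain ⟨S₀, hS₀⟩ := hC
  -- symmetric generating set
  set S : Set G := (S₀ : Set G) ∪ (fun x => x⁻¹) '' (S₀ : Set G) with hS
  have hSf : S.Finite := S₀.finite_toSet.union (S₀.finite_toSet.image _)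
  have hSC : ∀ s ∈ S, s ∈ C := by
    rintro s (hs | ⟨s, hs, rfl⟩)
    · rw [← hS₀]; exact subset_closure hs
    · rw [← hS₀]; exact inv_mem (subset_closure hs)
  -- the finite set of elements to be decomposed
  set Z : Set G := X ∪ (fun p : G × G => p.1 * p.2 * p.1⁻¹) '' (S ×ˢ T) with hZ
  have hZf : Z.Finite := hX.union ((hSf.prod hT).image _)
  have hZm : ∀ z ∈ Z, ∃ f ∈ closure T, ∃ b ∈ B, f * b = z := by
    intro z hz
    have : z ∈ closure T ⊔ B := by
      rcases hz with hz | ⟨⟨s, t⟩, ⟨hs, ht⟩, rfl⟩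
      · exact hXT z hz
      · exact hCT s (hSC s hs) t ht
    rwa [Subgroup.mem_sup_of_normal_right] at this
  choose! f hf b hb hfb using hZm
  obtain ⟨T', hT', hTB', hYT', hCT'⟩ := h2 (b '' Z) (hZf.image _) (by
    rintro _ ⟨z, hz, rfl⟩; exact hb z hz)
  have hm1 : closure T ≤ closure (T ∪ T') := closure_mono Set.subset_union_left
  have hm2 : closure T' ⊔ D ≤ closure (T ∪ T') ⊔ D :=
    sup_le_sup_right (Subgroup.closure_mono Set.subset_union_right) D
  have hZin : ∀ z ∈ Z, z ∈ closure (T ∪ T') ⊔ D := by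
    intro z hz
    rw [← hfb z hz]
    exact mul_mem (Subgroup.mem_sup_left (hm1 (hf z hz))) (hm2 (hYT' _ ⟨z, hz, rfl⟩))
  refine ⟨T ∪ T', hT.union hT', Set.union_subset hTA (hTB'.trans hBA), ?_, ?_⟩
  · intro x hx
    exact hZin x (Or.inl hx)
  · -- invariance
    have hgen : ∀ s ∈ S, ∀ k ∈ closure (T ∪ T') ⊔ D, s * k * s⁻¹ ∈ closure (T ∪ T') ⊔ D := by
      intro s hs
      apply conj_mem_of_gen_sup
      rintro t (ht | ht)
      · exact hZin _ (Or.inr ⟨(s, t), ⟨hs, ht⟩, rfl⟩)
      · exact hm2 (hCT' s (hSC s hs) t ht)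
    have hall : ∀ c ∈ C, (∀ k ∈ closure (T ∪ T') ⊔ D, c * k * c⁻¹ ∈ closure (T ∪ T') ⊔ D) ∧
        (∀ k ∈ closure (T ∪ T') ⊔ D, c⁻¹ * k * c ∈ closure (T ∪ T') ⊔ D) := by
      intro c hc
      rw [← hS₀] at hc
      induction hc using Subgroup.closure_induction with
      | mem s hs =>
        refine ⟨hgen s (Or.inl hs), fun k hk => ?_⟩
        have := hgen s⁻¹ (Or.inr ⟨s, hs, rfl⟩) k hk
        simpa using this
      | one => simp
      | mul x y _ _ h1 h2 =>
        refine ⟨fun k hk => ?_, fun k hk => ?_⟩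
        · have := h1.1 _ (h2.1 k hk)
          simpa [mul_assoc] using this
        · have := h2.2 _ (h1.2 k hk)
          simpa [mul_assoc] using this
      | inv x _ h1 =>
        refine ⟨fun k hk => ?_, fun k hk => ?_⟩
        · simpa using h1.2 k hk
        · simpa using h1.1 k hk
    intro c hc t ht
    exact (hall c hc).1 t (Subgroup.mem_sup_left (subset_closure ht))

theorem nilp_of_le {F N : Subgroup G} (hN : Group.IsNilpotent N) (h : F ≤ N) :
    Group.IsNilpotent F := by
  rw [Subgroup.isNilpotent_iff_lowerCentralSeries] at *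
  obtain ⟨n, hn⟩ := hN
  refine ⟨n, ?_⟩
  rw [eq_bot_iff, ← hn]
  exact Subgroup.lowerCentralSeries_mono n h

theorem lf_step {C N : Subgroup G} [N.Normal] (hN : Group.IsNilpotent N) (i : ℕ)
    (h : LF C N (N.lowerCentralSeries (i + 1))) :
    LF C (N.lowerCentralSeries (i + 1)) (N.lowerCentralSeries (i + 2)) := by
  intro X hX hXA
  -- write the elements of X as products of commutators
  have hX1 : ∀ x ∈ X, x ∈ closure (commSet (N.lowerCentralSeries i : Set G) (N : Set G)) := by
    intro x hx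
    have h1 := hXA hx
    have h2 : x ∈ ⁅N.lowerCentralSeries i, N⁆ := h1
    rw [Subgroup.commutator_def] at h2
    refine closure_mono ?_ h2
    rintro z ⟨a, ha, b, hb, rfl⟩
    exact ⟨a, ha, b, hb, rfl⟩
  obtain ⟨V, hV, hVU, hXV⟩ := exists_finite_subset_closure hX hX1
  have hV' : ∀ v ∈ V, ∃ s ∈ N.lowerCentralSeries i, ∃ t ∈ N, v = ⁅s, t⁆ := fun v hv => hVU hv
  choose! a ha b hb hab using hV'
  have hLN : N.lowerCentralSeries i ≤ N := lcs_le N i
  have hLN1 : N.lowerCentralSeries (i + 1) ≤ N := lcs_le N (i + 1)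
  have hL1 : N.lowerCentralSeries (i + 1) ≤ N.lowerCentralSeries i :=
    Subgroup.lowerCentralSeries_antitone _ (Nat.le_succ _)
  obtain ⟨T, hT, hTN, hXT, hCT⟩ := h (a '' V ∪ b '' V) ((hV.image _).union (hV.image _)) (by
    rintro _ (⟨v, hv, rfl⟩ | ⟨v, hv, rfl⟩)
    · exact hLN (ha v hv)
    · exact hb v hv)
  have hFN : closure T ≤ N := by rw [closure_le]; exact hTN
  have hFfg : (closure T).FG := ⟨hT.toFinset, by simp⟩
  have hFno : NoethSub (closure T) := noethSub_of_nilpotent_fg (nilp_of_le hN hFN) hFfg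
  obtain ⟨T₁, hT₁⟩ := hFno (closure T ⊓ N.lowerCentralSeries i) inf_le_left
  have hT₁L : (T₁ : Set G) ⊆ N.lowerCentralSeries i := by
    intro t ht
    have : t ∈ closure T ⊓ N.lowerCentralSeries i := by rw [← hT₁]; exact subset_closure ht
    exact this.2
  -- elements of the i-th term in F ⊔ E lie in closure T₁ ⊔ E
  have hmem : ∀ x ∈ N.lowerCentralSeries i, x ∈ closure T ⊔ N.lowerCentralSeries (i + 1) →
      x ∈ closure (T₁ : Set G) ⊔ N.lowerCentralSeries (i + 1) := by
    intro x hx hx'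
    rw [Subgroup.mem_sup_of_normal_right] at hx'
    obtain ⟨f, hf, e, he, rfl⟩ := hx'
    have : f ∈ closure T ⊓ N.lowerCentralSeries i := by
      refine ⟨hf, ?_⟩
      have := (N.lowerCentralSeries i).mul_mem hx ((N.lowerCentralSeries i).inv_mem (hL1 he))
      simpa using this
    rw [← hT₁] at this
    exact mul_mem (Subgroup.mem_sup_left this) (Subgroup.mem_sup_right he)
  have key := comm_mem_of_gens' (A := N.lowerCentralSeries i) (N := N)
    (E := N.lowerCentralSeries (i + 1)) (D := N.lowerCentralSeries (i + 2)) hLN hLN1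
    (le_of_eq rfl) (Subgroup.lowerCentralSeries_antitone _ (Nat.le_succ _)) (le_of_eq rfl)
    (T₁ : Set G) T hT₁L hTN
  refine ⟨commSet T₁ T, commSet_finite T₁.finite_toSet hT, ?_, ?_, ?_⟩
  · rintro z ⟨s, hs, t, ht, rfl⟩
    exact commutator_mem_commutator (hT₁L hs) (hTN ht)
  · intro x hx
    have h3 : closure V ≤ closure (commSet (T₁ : Set G) T) ⊔ N.lowerCentralSeries (i + 2) := by
      rw [closure_le]
      intro v hv
      rw [hab v hv]
      exact key _ (hmem _ (ha v hv) (hXT _ (Or.inl ⟨v, hv, rfl⟩))) _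
        (hXT _ (Or.inr ⟨v, hv, rfl⟩))
    exact h3 (hXV x hx)
  · rintro c hc z ⟨s, hs, t, ht, rfl⟩
    rw [conjugate_commutatorElement]
    refine key _ (hmem _ ?_ ?_) _ (hCT c hc t ht)
    · exact Subgroup.Normal.conj_mem inferInstance _ (hT₁L hs) _
    · have hsF : s ∈ closure T := by
        have : s ∈ closure T ⊓ N.lowerCentralSeries i := by rw [← hT₁]; exact subset_closure hs
        exact this.1
      exact conj_mem_of_gen c T _ (hCT c hc) s hsF

/-- If `N` is nilpotent and `N / [N, N]` is locally finitely generated under conjugation by the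
finitely generated subgroup `C`, then so is `N`. -/
theorem lf_of_lf_ab {C N : Subgroup G} [N.Normal] (hN : Group.IsNilpotent N) (hC : C.FG)
    (h : LF C N ⁅N, N⁆) : LF C N ⊥ := by
  have key : ∀ i, LF C N (N.lowerCentralSeries (i + 1)) := by
    intro i
    induction i with
    | zero => exact h
    | succ n ih => exact lf_ext hC (lcs_le N _) ih (lf_step hN n ih)
  obtain ⟨n, hn⟩ := (Subgroup.isNilpotent_iff_lowerCentralSeries N).mp hN
  have h1 := key n
  have h2 : N.lowerCentralSeries (n + 1) = ⊥ := by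
    rw [eq_bot_iff, ← hn]; exact Subgroup.lowerCentralSeries_antitone _ (Nat.le_succ _)
  rwa [h2] at h1

/-- Consequence: a subgroup `K ≤ N` normalised by `C` which is the `C`-closure of a finite set
is finitely generated. -/
theorem fg_of_lf {C N K : Subgroup G} [N.Normal] (hN : Group.IsNilpotent N)
    (h : LF C N ⊥) (hKN : K ≤ N) (X : Set G) (hX : X.Finite) (hXK : X ⊆ K)
    (hgen : ∀ L : Subgroup G, X ⊆ L → (∀ c ∈ C, ∀ l ∈ L, c * l * c⁻¹ ∈ L) → K ≤ L) : K.FG := by
  obtain ⟨T, hT, hTN, hXT, hCT⟩ := h X hX (hXK.trans hKN)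
  simp only [sup_bot_eq] at hXT hCT
  have h1 : K ≤ closure T := hgen _ hXT (fun c hc => conj_mem_of_gen c T _ (hCT c hc))
  have hFN : closure T ≤ N := by rw [closure_le]; exact hTN
  have hFfg : (closure T).FG := ⟨hT.toFinset, by simp⟩
  exact noethSub_of_nilpotent_fg (nilp_of_le hN hFN) hFfg K h1

end Pool.Agent.PolycyclicCent
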