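import Pool.Agent.Lib.MP_d5e6ed_al.Noeth

/-!
Finitely generated nilpotent groups have all subgroups finitely generated.
-/

namespace Pool.Agent.PolycyclicCent

open Subgroup
open scoped commutatorElement

variable {G : Type*} [Group G]

/-- The set of commutators of elements of two sets. -/
def commSet (T₁ T₂ : Set G) : Set G := {z | ∃ s ∈ T₁, ∃ t ∈ T₂, z = ⁅s, t⁆}

theorem commSet_finite {T₁ T₂ : Set G} (h₁ : T₁.Finite) (h₂ : T₂.Finite) :
    (commSet T₁ T₂).Finite := by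
  have : commSet T₁ T₂ ⊆ (fun p : G × G => ⁅p.1, p.2⁆) '' (T₁ ×ˢ T₂) := by
    rintro z ⟨s, hs, t, ht, rfl⟩
    exact ⟨(s, t), ⟨hs, ht⟩, rfl⟩
  exact ((h₁.prod h₂).image _).subset this

section bilinear

variable {A N E D : Subgroup G}

theorem conj_mem_W (_hDE : D ≤ E) (hEN : ⁅E, N⁆ ≤ D) {W : Subgroup G} (hDW : D ≤ W) (hWE : W ≤ E)
    {n w : G} (hn : n ∈ N) (hw : w ∈ W) : n * w * n⁻¹ ∈ W := by
  have h1 : ⁅w, n⁆ ∈ D := hEN (commutator_mem_commutator (hWE hw) hn)
  have h2 : n * w * n⁻¹ = ⁅w, n⁆⁻¹ * w := by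
    simp [commutatorElement_def, mul_assoc]
  rw [h2]
  exact W.mul_mem (W.inv_mem (hDW h1)) hw

theorem comm_mem_of_gens (hAN' : A ≤ N) (hAN : ⁅A, N⁆ ≤ E) (hDE : D ≤ E) (hEN : ⁅E, N⁆ ≤ D)
    (T₁ T₂ : Set G) (h₁ : T₁ ⊆ A) (h₂ : T₂ ⊆ N) :
    ∀ x ∈ closure T₁, ∀ y ∈ closure T₂, ⁅x, y⁆ ∈ closure (commSet T₁ T₂) ⊔ D := by
  set W := closure (commSet T₁ T₂) ⊔ D with hW
  have hDW : D ≤ W := le_sup_right
  have hWE : W ≤ E := by
    refine sup_le ?_ hDE
    rw [closure_le]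
    rintro z ⟨s, hs, t, ht, rfl⟩
    exact hAN (commutator_mem_commutator (h₁ hs) (h₂ ht))
  have hcl2 : closure T₂ ≤ N := by rw [closure_le]; exact h₂
  have hcl1 : closure T₁ ≤ A := by rw [closure_le]; exact h₁
  have key : ∀ s ∈ T₁, ∀ y ∈ closure T₂, ⁅s, y⁆ ∈ W := by
    intro s hs y hy
    induction hy using Subgroup.closure_induction with
    | mem t ht =>
      have : ⁅s, t⁆ ∈ closure (commSet T₁ T₂) := subset_closure ⟨s, hs, t, ht, rfl⟩
      exact Subgroup.mem_sup_left this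
    | one => simp
    | mul y z hy hz h1 h2 =>
      rw [show ⁅s, y * z⁆ = ⁅s, y⁆ * (y * ⁅s, z⁆ * y⁻¹) by
        simp [commutatorElement_def, mul_assoc]]
      exact W.mul_mem h1 (conj_mem_W hDE hEN hDW hWE (hcl2 hy) h2)
    | inv y hy h1 =>
      rw [show ⁅s, y⁻¹⁆ = y⁻¹ * ⁅s, y⁆⁻¹ * y⁻¹⁻¹ by
        simp [commutatorElement_def, mul_assoc]]
      exact conj_mem_W hDE hEN hDW hWE (N.inv_mem (hcl2 hy)) (W.inv_mem h1)
  intro x hx y hy
  induction hx using Subgroup.closure_induction with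
  | mem t ht => exact key t ht y hy
  | one => simp
  | mul x z hx hz h1 h2 =>
    rw [show ⁅x * z, y⁆ = (x * ⁅z, y⁆ * x⁻¹) * ⁅x, y⁆ by
      simp [commutatorElement_def, mul_assoc]]
    exact W.mul_mem (conj_mem_W hDE hEN hDW hWE (hAN' (hcl1 hx)) h2) h1
  | inv x hx h1 =>
    rw [show ⁅x⁻¹, y⁆ = x⁻¹ * ⁅x, y⁆⁻¹ * x⁻¹⁻¹ by
      simp [commutatorElement_def, mul_assoc]]
    exact conj_mem_W hDE hEN hDW hWE (N.inv_mem (hAN' (hcl1 hx))) (W.inv_mem h1)

/-- same, with `x` and `y` only known modulo `E`. -/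
theorem comm_mem_of_gens' [E.Normal] [D.Normal] (hAN' : A ≤ N) (hEN' : E ≤ N)
    (hAN : ⁅A, N⁆ ≤ E) (hDE : D ≤ E) (hEN : ⁅E, N⁆ ≤ D)
    (T₁ T₂ : Set G) (h₁ : T₁ ⊆ A) (h₂ : T₂ ⊆ N) :
    ∀ x ∈ closure T₁ ⊔ E, ∀ y ∈ closure T₂ ⊔ E, ⁅x, y⁆ ∈ closure (commSet T₁ T₂) ⊔ D := by
  intro x hx y hy
  rw [Subgroup.mem_sup_of_normal_right] at hx hy
  obtain ⟨f, hf, e, he, rfl⟩ := hx
  obtain ⟨f', hf', e', he', rfl⟩ := hy
  set W := closure (commSet T₁ T₂) ⊔ D with hW
  have hDW : D ≤ W := le_sup_right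
  have hcl2 : closure T₂ ≤ N := by rw [closure_le]; exact h₂
  have hcl1 : closure T₁ ≤ A := by rw [closure_le]; exact h₁
  have h0 : ⁅f, f'⁆ ∈ W := comm_mem_of_gens hAN' hAN hDE hEN T₁ T₂ h₁ h₂ f hf f' hf'
  have hy : f' * e' ∈ N := N.mul_mem (hcl2 hf') (hEN' he')
  have h1 : ⁅e, f' * e'⁆ ∈ D := hEN (commutator_mem_commutator he hy)
  have h2 : ⁅f, e'⁆ ∈ D := by
    have := hEN (commutator_mem_commutator he' (hAN' (hcl1 hf)))
    rw [← commutatorElement_inv]
    exact D.inv_mem this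
  have h3 : ⁅f * e, f' * e'⁆ = (f * ⁅e, f' * e'⁆ * f⁻¹) * (⁅f, f'⁆ * (f' * ⁅f, e'⁆ * f'⁻¹)) := by
    simp [commutatorElement_def, mul_assoc]
  rw [h3]
  exact W.mul_mem (hDW (Subgroup.Normal.conj_mem inferInstance _ h1 _))
    (W.mul_mem h0 (hDW (Subgroup.Normal.conj_mem inferInstance _ h2 _)))

end bilinear

theorem lcs_succ (N : Subgroup G) (i : ℕ) :
    N.lowerCentralSeries (i + 1) = ⁅N.lowerCentralSeries i, N⁆ := rfl

instance lcs_normal (N : Subgroup G) [N.Normal] (i : ℕ) : (N.lowerCentralSeries i).Normal := by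
  induction i with
  | zero => simpa
  | succ n ih => rw [lcs_succ]; infer_instance

theorem lcs_le (N : Subgroup G) (i : ℕ) : N.lowerCentralSeries i ≤ N := by
  have := N.lowerCentralSeries_antitone (Nat.zero_le i)
  simpa using this

/-- the lower central factors of a finitely generated group are finitely generated -/
theorem lcs_fg [Group.FG G] (i : ℕ) : ∃ T : Set G, T.Finite ∧
    T ⊆ ((⊤ : Subgroup G).lowerCentralSeries i : Set G) ∧
    (⊤ : Subgroup G).lowerCentralSeries i ≤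
      closure T ⊔ (⊤ : Subgroup G).lowerCentralSeries (i + 1) := by
  obtain ⟨S, hS, hSf⟩ := Group.fg_iff.mp (inferInstance : Group.FG G)
  induction i with
  | zero => exact ⟨S, hSf, by simp, by rw [hS]; simp⟩
  | succ n ih =>
    obtain ⟨T, hTf, hT, hTle⟩ := ih
    refine ⟨commSet T S, commSet_finite hTf hSf, ?_, ?_⟩
    · rintro z ⟨s, hs, t, ht, rfl⟩
      rw [lcs_succ]
      exact commutator_mem_commutator (hT hs) (mem_top _)
    · have := comm_mem_of_gens' (A := (⊤ : Subgroup G).lowerCentralSeries n) (N := ⊤)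
        (E := (⊤ : Subgroup G).lowerCentralSeries (n + 1))
        (D := (⊤ : Subgroup G).lowerCentralSeries (n + 1 + 1)) le_top le_top
        (by rw [lcs_succ]) (Subgroup.lowerCentralSeries_antitone _ (Nat.le_succ _))
        (by rw [lcs_succ _ (n + 1)]) T S hT (by simp)
      rw [lcs_succ _ n, commutator_le]
      intro x hx y _
      rw [lcs_succ _ n] at this
      exact this x (hTle hx) y (Subgroup.mem_sup_left (by rw [hS]; exact mem_top _))

theorem noeth_of_nilpotent_fg [Group.IsNilpotent G] [Group.FG G] (H : Subgroup G) : H.FG := by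
  obtain ⟨n, hn⟩ := Subgroup.nilpotent_iff_lowerCentralSeries.mp (inferInstance : Group.IsNilpotent G)
  have key : ∀ k, k ≤ n → NoethSub ((⊤ : Subgroup G).lowerCentralSeries (n - k)) := by
    intro k
    induction k with
    | zero =>
      intro _ H hH
      rw [Nat.sub_zero, hn, le_bot_iff] at hH
      rw [hH]; exact ⟨∅, by simp⟩
    | succ k ih =>
      intro hk
      have h1 := ih (by omega)
      have e : n - k = (n - (k + 1)) + 1 := by omega
      rw [e] at h1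
      obtain ⟨T, hTf, hT, hTle⟩ := lcs_fg (G := G) (n - (k + 1))
      refine noethSub_of_comm h1 ?_ (closure T) ?_ hTle (by rw [closure_le]; exact hT)
      · intro x hx y hy
        rw [lcs_succ]
        exact commutator_mem_commutator hx (mem_top _)
      · exact ⟨hTf.toFinset, by simp⟩
  have := key n le_rfl
  rw [Nat.sub_self] at this
  exact this H (by simp)

/-- Subgroup version: a finitely generated nilpotent subgroup has all its subgroups f.g. -/
theorem noethSub_of_nilpotent_fg {F : Subgroup G} (hF : Group.IsNilpotent F) (hfg : F.FG) :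
    NoethSub F := by
  intro H hH
  have h1 : Group.FG F := (Group.fg_iff_subgroup_fg F).mpr hfg
  have := noeth_of_nilpotent_fg (H.subgroupOf F)
  have h4 := map_fg F.subtype this
  rwa [Subgroup.map_subgroupOf_eq_of_le hH] at h4

end Pool.Agent.PolycyclicCent
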